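import Pool.Agent.K1H22.SR.Stm

/-! Project SR (MP_60edde_al), piece SR-E: `S_MAIN` from the other pieces. -/

set_option autoImplicit false

namespace Pool.Agent.K1H16.SR

open Pool.Agent.K1H22.SR Filter

section rl

variable {B W : Type} [Group W] {M : CoxeterMatrix B} (cs : CoxeterSystem M W)

lemma rl_le {w : W} (l : List W) (h1 : ∀ t ∈ l, cs.IsReflection t) (h2 : l.prod = w) :
    rl cs w ≤ l.length := Nat.sInf_le ⟨l, rfl, h1, h2⟩

lemma rl_spec (w : W) : ∃ l : List W, l.length = rl cs w ∧ (∀ t ∈ l, cs.IsReflection t) ∧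
    l.prod = w := by
  have hne : {n : ℕ | ∃ l : List W, l.length = n ∧ (∀ t ∈ l, cs.IsReflection t) ∧
      l.prod = w}.Nonempty := by
    obtain ⟨ω, rfl⟩ := cs.wordProd_surjective w
    refine ⟨_, ω.map cs.simple, rfl, ?_, rfl⟩
    intro t ht
    obtain ⟨i, _, rfl⟩ := List.mem_map.1 ht
    exact cs.isReflection_simple i
  exact Nat.sInf_mem hne

lemma rl_mul (x y : W) : rl cs (x * y) ≤ rl cs x + rl cs y := by
  obtain ⟨l, l1, l2, l3⟩ := rl_spec cs x
  obtain ⟨k, k1, k2, k3⟩ := rl_spec cs y
  have := rl_le cs (w := x * y) (l ++ k) (by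
    intro t ht
    rcases List.mem_append.1 ht with h | h
    · exact l2 t h
    · exact k2 t h) (by rw [List.prod_append, l3, k3])
  rw [List.length_append, l1, k1] at this
  exact this

lemma rl_one : rl cs 1 = 0 := by
  have := rl_le cs (w := 1) [] (by simp) (by simp)
  simpa using this

lemma wordProd_rep (ω : List B) (n : ℕ) :
    cs.wordProd (List.replicate n ω).flatten = cs.wordProd ω ^ n := by
  induction n with
  | zero => simp
  | succ n ih => rw [List.replicate_succ, List.flatten_cons, cs.wordProd_append, ih, pow_succ']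

lemma length_rep (ω : List B) (n : ℕ) : (List.replicate n ω).flatten.length = n * ω.length := by
  induction n with
  | zero => simp
  | succ n ih =>
    rw [List.replicate_succ, List.flatten_cons, List.length_append, ih]
    ring

end rl

theorem t_MAIN (h1 : S_DYER) (h2 : S_SLOPE) (h3 : S_AUT) (h4 : S_LET) (h5 : S_COS) : S_MAIN := by
  intro B W _ _ _ M cs hF w
  obtain ⟨ω, rfl⟩ := cs.wordProd_surjective w
  by_cases hω : ω = []
  · refine ⟨0, ?_⟩
    subst hω
    have h : (fun n : ℕ => (rl cs (cs.wordProd [] ^ n) : ℝ) / n) = fun _ => ((0 : ℚ) : ℝ) := by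
      funext n
      rw [cs.wordProd_nil, one_pow, rl_one]
      simp
    rw [h]
    exact tendsto_const_nhds
  set w := cs.wordProd ω with hw
  -- subadditivity
  set a : ℕ → ℝ := fun n => (rl cs (w ^ n) : ℝ) with ha
  have hsub : Subadditive a := by
    intro m n
    simp only [ha]
    rw [pow_add]
    exact_mod_cast rl_mul cs _ _
  have hbdd : BddBelow (Set.range fun n => a n / n) := by
    refine ⟨0, ?_⟩
    rintro _ ⟨n, rfl⟩
    simp only [ha]
    positivity
  have htend := hsub.tendsto_lim hbdd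
  set s : ℝ := hsub.lim with hs
  have hsn : ∀ n : ℕ, s * n ≤ a n := by
    intro n
    rcases Nat.eq_zero_or_pos n with rfl | hn
    · simp only [ha]
      push_cast
      rw [mul_zero]
      positivity
    · have h := hsub.lim_le_div hbdd hn.ne'
      have hn' : (0 : ℝ) < n := by exact_mod_cast hn
      rw [le_div_iff₀ hn'] at h
      exact h
  -- the binary system
  obtain ⟨T, X, E, t0, hE⟩ := h5 W B cs.simple ω hω hF
  obtain ⟨T', Tr, t1, hTr⟩ := h4 T X E t0
  obtain ⟨Q, R, Bs, X0, hQ⟩ := h3 T' X Tr t1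
  have hDer : ∀ n d : ℕ, Der R Bs X0 (n, d) ↔ Del cs.simple ω n d := fun n d =>
    (hQ (n, d)).trans ((hTr (n, d)).trans (hE n d))
  obtain ⟨q, hq⟩ := h2 Q R Bs X0 s (by
    intro n d hd
    obtain ⟨u, u1, u2, u3⟩ := (hDer n d).1 hd
    have h := (h1 B W M cs (List.replicate n ω).flatten).1 u u1 u2
    rw [wordProd_rep, length_rep, ← u3, ← hw] at h
    have h' : rl cs (w ^ n) ≤ d := by omega
    refine (hsn n).trans ?_
    simp only [ha]
    exact_mod_cast h') (by
    intro ε hε N
    have hev : ∀ᶠ n : ℕ in atTop, a n / n < s + ε :=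
      htend.eventually_lt_const (by linarith)
    obtain ⟨n, hn1, hn2⟩ := (hev.and (eventually_ge_atTop (max N 1))).exists
    have hn3 : N ≤ n := (le_max_left _ _).trans hn2
    have hn4 : 1 ≤ n := (le_max_right _ _).trans hn2
    have hn' : (0 : ℝ) < n := by exact_mod_cast hn4
    refine ⟨n, rl cs (w ^ n), hn3, (hDer _ _).2 ?_, ?_⟩
    · obtain ⟨u, u1, u2, u3⟩ := (h1 B W M cs (List.replicate n ω).flatten).2
      rw [wordProd_rep, length_rep, ← hw] at u3
      exact ⟨u, u1, u2, by omega⟩
    · rw [div_lt_iff₀ hn'] at hn1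
      exact hn1.le)
  refine ⟨q, ?_⟩
  rw [← hq]
  exact htend

end Pool.Agent.K1H16.SR
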